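import Mathlib

/-! Abstract interface for the cone over a largest plane `Q` with apex `o` in rank 4
(MP_47cd0b_co, THEOREM D of the page MP_47cd0b_FINAL_h20.md).
`Y` = points of `Q`, `U` = users (points off `Q` other than `o`), `E` = lines of `Q`,
`G` = lines `z v y`, `P` = planes `z v l`, `R` = lines through `o`. -/

namespace H20SW

open Finset Classical

/-- A cone over a largest plane. -/
structure Cone (Y U E G P R : Type) [Fintype Y] [Fintype U] [Fintype E] where
  /-- bound for the lines -/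
  s : ℕ
  /-- the point lies on the line of `Q` -/
  on : Y → E → Prop
  /-- the plane `z v l` -/
  pl : U → E → P
  /-- the line `z v y` -/
  ln : U → Y → G
  /-- the line `z v o` -/
  ray : U → R
  /-- the line `l` is allowed at `z`: `o` is not below `z v l` -/
  ok : U → E → Prop
  /-- the point `y` is below `z v o` -/
  tip : U → Y → Prop
  two : ∀ l, ∃ x y, x ≠ y ∧ on x l ∧ on y l
  join : ∀ x y, x ≠ y → ∃ l, on x l ∧ on y l
  uniq : ∀ x y l m, x ≠ y → on x l → on y l → on x m → on y m → l = m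
  short : ∀ l, (univ.filter fun y => on y l).card ≤ s
  pl_line : ∀ z w l m, pl z l = pl w m → l = m
  ln_pt : ∀ z w x y, ln z x = ln w y → x = y
  ok_congr : ∀ z w l, pl z l = pl w l → ok z l → ok w l
  ln_pl : ∀ z w y l, on y l → ln z y = ln w y → pl z l = pl w l
  card_pl : ∀ z l, ok z l →
    (univ.filter fun w => pl w l = pl z l).card + (univ.filter fun y => on y l).card
      ≤ Fintype.card Y
  card_ln : ∀ z y, (univ.filter fun w => ln w y = ln z y).card ≤ s
  tip_uniq : ∀ z x y, tip z x → tip z y → x = y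
  tip_bad : ∀ z y l, tip z y → on y l → ¬ ok z l
  bad_uniq : ∀ z y l m, ¬ tip z y → on y l → on y m → ¬ ok z l → ¬ ok z m → l = m
  ray_ok : ∀ z w l, ray z = ray w → ok z l → ok w l
  ray_bad : ∀ z w l m, ray z ≠ ray w → ¬ ok z l → ¬ ok w l → ¬ ok z m → ¬ ok w m → l = m
  ray_pl : ∀ z w l, ray z = ray w → ok z l → pl z l = pl w l → z = w
  ray_ln : ∀ z w y, ray z = ray w → ¬ tip z y → ln z y = ln w y → z = w
  two_ln : ∀ z w x y, x ≠ y → ln z x = ln w x → ln z y = ln w y → z = w

namespace Cone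

variable {Y U E G P R : Type} [Fintype Y] [Fintype U] [Fintype E]

/-- number of points of a line of `Q` -/
noncomputable def tl (C : Cone Y U E G P R) (l : E) : ℕ := (univ.filter fun y => C.on y l).card

/-- the conclusion: every user gets a plane and two lines in it, all different -/
def Good (C : Cone Y U E G P R) : Prop :=
  ∃ (l : U → E) (x y : U → Y),
    (∀ z, C.ok z (l z) ∧ C.on (x z) (l z) ∧ C.on (y z) (l z) ∧ x z ≠ y z) ∧
    (∀ z w, z ≠ w → C.pl z (l z) ≠ C.pl w (l w) ∧ C.ln z (x z) ≠ C.ln w (x w) ∧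
      C.ln z (y z) ≠ C.ln w (y w) ∧ C.ln z (x z) ≠ C.ln w (y w))

/-- number of pairs of the family on a point -/
noncomputable def dg (J : Finset E) (a b : E → Y) (y : Y) : ℕ :=
  (J.filter fun l => a l = y ∨ b l = y).card

/-- `J` with the pairs `a l, b l`: a maximal family of pairs on thin lines (fewer than `p` points),
one pair per line, every point in at most `D` pairs -/
structure Fam (C : Cone Y U E G P R) (p D : ℕ) (J : Finset E) (a b : E → Y) : Prop where
  ne : ∀ l ∈ J, a l ≠ b l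
  ona : ∀ l ∈ J, C.on (a l) l
  onb : ∀ l ∈ J, C.on (b l) l
  thin : ∀ l ∈ J, C.tl l < p
  deg : ∀ y, dg J a b y ≤ D
  maxl : ∀ l, l ∉ J → C.tl l < p → ∀ x y, x ≠ y → C.on x l → C.on y l →
    dg J a b x = D ∨ dg J a b y = D

/-- the number of pairs of the family allowed at `z` -/
noncomputable def Jz (C : Cone Y U E G P R) (J : Finset E) (z : U) : ℕ :=
  (J.filter fun l => C.ok z l).card

/-- the fat sum of the user `z` -/
noncomputable def Fz (C : Cone Y U E G P R) (p : ℕ) (z : U) : ℝ :=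
  ∑ l ∈ univ.filter (fun l => C.ok z l ∧ p ≤ C.tl l), (1 : ℝ) / ((Fintype.card Y : ℝ) - C.tl l)

/-- `z` is bad: more than half of the family is excluded at `z` -/
def Bad (C : Cone Y U E G P R) (J : Finset E) (z : U) : Prop :=
  6 ≤ J.card ∧ 2 * C.Jz J z < J.card

end Cone

/-! ROWS (statements)

D2a  theorem exists_fam (C) (p D : ℕ) : ∃ J a b, C.Fam p D J a b

D2b  (DEF)  theorem def_sum (C) {a : ℕ} (ha : 3000 ≤ a) (hN : a ^ 40 ≤ Fintype.card Y)
      (hN2 : Fintype.card Y ≤ 2 * a ^ 40) (hs : C.s ≤ a ^ 34) {J} {α β}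
      (hJ : C.Fam (a ^ 19) a J α β) (z : U) :
      1 ≤ C.Fz (a ^ 19) z + (C.Jz J z : ℝ) / (4 * Fintype.card Y)

D3   theorem bad_pl (C) (J) (z : U) (l : E) (hl : C.ok z l) :
      (univ.filter fun w => C.pl w l = C.pl z l ∧ C.Bad J w).card ≤ 2
     theorem bad_ln (C) (J) (z : U) (y : Y) (l : E) (hy : C.on y l) (hl : C.ok z l) :
      (univ.filter fun w => C.ln w y = C.ln z y ∧ C.Bad J w).card ≤ 2

D4   case (a): theorem case_a (C) {a : ℕ} (ha) (hN) (hN2) (hs) {J} {α β}
      (hJ : C.Fam (a ^ 19) a J α β) (hlarge : 8 * Fintype.card Y ≤ a ^ 3 * J.card) : C.Good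

D5   case (b): theorem case_b (C) {a : ℕ} (ha) (hN) (hN2) (hs) {J} {α β}
      (hJ : C.Fam (a ^ 19) a J α β) (hsmall : a ^ 3 * J.card < 8 * Fintype.card Y) : C.Good
-/

end H20SW
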