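import Pool.Agent.Helper20.SW.Swap

/-! From a matching of users and planes to two lines for every user. -/

namespace H20SW

open Finset Classical


theorem arith1 {L Pn Mu S q : ℤ} (hL : L ≤ 2 * S - 1) (h3 : Pn * Pn ≤ L * (Pn + Mu))
    (h4 : (q + 2) * S ≤ Pn) (hq : 1 ≤ q) (hS : 0 < S) (hM : 0 ≤ Mu) :
    (q + 2) * q * S < 2 * Mu := by
  by_contra hge
  push Not at hge
  have hP : 0 < Pn := by nlinarith
  have g1 : 0 ≤ (Pn - (q + 2) * S) * (Pn + q * S) := by
    apply mul_nonneg (by linarith)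
    have : 0 < q * S := by positivity
    linarith
  have g2 : L * (Pn + Mu) ≤ (2 * S - 1) * (Pn + Mu) :=
    mul_le_mul_of_nonneg_right hL (by linarith)
  have g3 : (2 * S - 1) * (2 * Mu) ≤ (2 * S - 1) * ((q + 2) * q * S) :=
    mul_le_mul_of_nonneg_left hge (by linarith)
  have g4 : 0 < (q + 2) * q * S := by positivity
  have g5 : (Pn - (q + 2) * S) * (Pn + q * S) = Pn * Pn - 2 * S * Pn - (q + 2) * q * S * S := by ring
  have g6 : (2 * S - 1) * (Pn + Mu) = 2 * S * Pn - Pn + (2 * S - 1) * Mu := by ring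
  have g7 : (2 * S - 1) * (2 * Mu) = 2 * ((2 * S - 1) * Mu) := by ring
  have g8 : (2 * S - 1) * ((q + 2) * q * S) = 2 * ((q + 2) * q * S * S) - (q + 2) * q * S := by ring
  linarith

theorem arith2 {B Mu S k : ℤ} (hB : 1 ≤ B) (hS : 0 < S) (h1 : (B + 2) * S < 2 * Mu)
    (h2 : Mu * Mu ≤ S * (S * k + Mu)) (h3 : 4 * k ≤ (B + 2) * B) : False := by
  have g1 : 0 < (2 * Mu - (B + 2) * S) * (2 * Mu + B * S) := by
    have : 0 < B * S := by positivity
    have : 0 < (B + 2) * S := by positivity
    apply mul_pos (by linarith) (by linarith)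
  have g2 : S * S * (4 * k) ≤ S * S * ((B + 2) * B) :=
    mul_le_mul_of_nonneg_left h3 (by positivity)
  have g3 : (2 * Mu - (B + 2) * S) * (2 * Mu + B * S)
      = 4 * (Mu * Mu) - 4 * (S * Mu) - S * S * ((B + 2) * B) := by ring
  have g4 : S * (S * k + Mu) = S * S * k + S * Mu := by ring
  linarith

theorem arith {L Pn Mu S q h c : ℕ} (hS : 0 < S) (hq : 1 ≤ q) (hL : L < 2 * S)
    (e3 : Pn * Pn ≤ L * (Pn + Mu)) (e4 : (q + 2) * S ≤ Pn)
    (e5 : Mu * Mu ≤ S * (S * (h * c) + Mu))
    (hnum : 4 * (h * c) ≤ (q + 2) * (q + 2 - 2) * ((q + 2) * (q + 2 - 2) - 2)) : False := by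
  rw [Nat.add_sub_cancel] at hnum
  have hB3 : 3 ≤ (q + 2) * q := by nlinarith
  obtain ⟨B, hB⟩ : ∃ B, (q + 2) * q = B + 2 := ⟨(q + 2) * q - 2, by omega⟩
  rw [hB, Nat.add_sub_cancel] at hnum
  have k1 : ((q : ℤ) + 2) * q * S < 2 * Mu := by
    refine arith1 (L := L) (Pn := Pn) ?_ (by exact_mod_cast e3) (by exact_mod_cast e4)
      (by exact_mod_cast hq) (by exact_mod_cast hS) (by positivity)
    have : (L : ℤ) < 2 * S := by exact_mod_cast hL
    linarith
  have hB' : ((q : ℤ) + 2) * q = B + 2 := by exact_mod_cast hB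
  rw [hB'] at k1
  refine arith2 (B := B) (k := (h * c : ℕ)) ?_ (by exact_mod_cast hS : (0 : ℤ) < S) k1
    (by exact_mod_cast e5) (by exact_mod_cast hnum)
  have : 1 ≤ B := by omega
  exact_mod_cast this

variable {U P G : Type} [Fintype U]

theorem two_lines {inc : U → P → Prop} {pen : U → P → Finset G} {h c p : ℕ}
    (hinc : ∀ z w H K, z ≠ w → inc z H → inc w K → Rel pen z H w K → inc z K ∧ inc w H)
    (hh : ∀ z H, inc z H → (univ.filter fun w => w ≠ z ∧ inc w H).card ≤ h)
    (hc : ∀ w H K, H ≠ K → inc w H → inc w K →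
      (univ.filter fun z => z ≠ w ∧ inc z H ∧ Rel pen z H w K).card ≤ c)
    (huniq : ∀ z w H K g g', z ≠ w → inc z H → inc w K → g ∈ pen z H → g ∈ pen w K →
      g' ∈ pen z H → g' ∈ pen w K → g = g')
    (hp : 3 ≤ p) (hpen : ∀ z H, inc z H → p ≤ (pen z H).card)
    (hnum : 4 * (h * c) ≤ p * (p - 2) * (p * (p - 2) - 2))
    {M0 : U → P} (hM0 : Function.Injective M0) (hM0i : ∀ z, inc z (M0 z)) :
    ∃ (M : U → P) (f g : U → G), Function.Injective M ∧ (∀ z, inc z (M z)) ∧
      (∀ z, f z ∈ pen z (M z) ∧ g z ∈ pen z (M z)) ∧ (∀ z w, f z ≠ g w) ∧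
      Function.Injective f ∧ Function.Injective g := by
  -- a minimal matching
  obtain ⟨M, ⟨hM, hMi⟩, hmin⟩ : ∃ M : U → P, (Function.Injective M ∧ ∀ z, inc z (M z)) ∧
      ∀ M' : U → P, (Function.Injective M' ∧ ∀ z, inc z (M' z)) → Phi pen M ≤ Phi pen M' := by
    have hne : ({M : U → P | Function.Injective M ∧ ∀ z, inc z (M z)}).Nonempty := ⟨M0, hM0, hM0i⟩
    refine ⟨Function.argminOn (Phi pen) _ hne, Function.argminOn_mem (Phi pen) _ hne, ?_⟩
    intro M' hM'
    exact Function.argminOn_le (Phi pen) _ hM'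
  have hfew := few_mutual hinc hh hc hM hMi (fun M' h1 h2 => hmin M' ⟨h1, h2⟩)
  -- the Hall condition
  have key : ∀ S : Finset U, 2 * S.card ≤ (S.biUnion fun z => pen z (M z)).card := by
    intro S
    by_contra hcon
    push Not at hcon
    set LS := S.biUnion fun z => pen z (M z) with hLS
    set Pn : ℕ := ∑ z ∈ S, (pen z (M z)).card with hPn
    set Mu : ℕ := ∑ z ∈ S, ∑ w ∈ S, ff pen M z w with hMu
    have hSpos : 0 < S.card := by
      by_contra h0
      have : S = ∅ := Finset.card_eq_zero.1 (by omega)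
      subst this
      simp at hcon
    let n : G → ℕ := fun g => ∑ z ∈ S, if g ∈ pen z (M z) then 1 else 0
    have hsub : ∀ z ∈ S, pen z (M z) ⊆ LS := fun z hz =>
      Finset.subset_biUnion_of_mem (fun z => pen z (M z)) hz
    have e1 : ∑ g ∈ LS, n g = Pn := by
      simp only [n]
      rw [Finset.sum_comm, hPn]
      refine Finset.sum_congr rfl fun z hz => ?_
      rw [← Finset.card_filter, Finset.filter_mem_eq_inter,
        Finset.inter_eq_right.2 (hsub z hz)]
    have e2 : ∑ g ∈ LS, n g * n g ≤ Pn + Mu := by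
      have : ∑ g ∈ LS, n g * n g = ∑ z ∈ S, ∑ w ∈ S,
          (pen z (M z) ∩ pen w (M w)).card := by
        simp only [n, Finset.sum_mul_sum]
        rw [Finset.sum_comm]
        refine Finset.sum_congr rfl fun z hz => ?_
        rw [Finset.sum_comm]
        refine Finset.sum_congr rfl fun w hw => ?_
        have : ∀ g, ((if g ∈ pen z (M z) then 1 else 0) * (if g ∈ pen w (M w) then 1 else 0) : ℕ)
            = if g ∈ pen z (M z) ∩ pen w (M w) then 1 else 0 := by
          intro g
          by_cases h1 : g ∈ pen z (M z) <;> by_cases h2 : g ∈ pen w (M w) <;>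
            simp [h1, h2]
        simp only [this]
        rw [← Finset.card_filter, Finset.filter_mem_eq_inter, Finset.inter_eq_right.2]
        exact fun g hg => hsub z hz (Finset.mem_inter.1 hg).1
      rw [this, hPn, hMu, ← Finset.sum_add_distrib]
      refine Finset.sum_le_sum fun z hz => ?_
      have hsplit : ∑ w ∈ S, (pen z (M z) ∩ pen w (M w)).card
          ≤ ∑ w ∈ S, ((if w = z then (pen z (M z)).card else 0) + ff pen M z w) := by
        refine Finset.sum_le_sum fun w hw => ?_
        by_cases hwz : w = z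
        · subst hwz
          simp
        · rw [if_neg hwz, zero_add]
          by_cases hr : Rel pen z (M z) w (M w)
          · have : ff pen M z w = 1 := by
              unfold ff
              rw [if_pos ⟨fun h => hwz h.symm, hr⟩]
            rw [this, Finset.card_le_one]
            intro g hg g' hg'
            rw [Finset.mem_inter] at hg hg'
            exact huniq z w _ _ g g' (fun h => hwz h.symm) (hMi z) (hMi w) hg.1 hg.2 hg'.1 hg'.2
          · have : pen z (M z) ∩ pen w (M w) = ∅ := by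
              rw [Finset.eq_empty_iff_forall_notMem]
              intro g hg
              rw [Finset.mem_inter] at hg
              exact hr ⟨g, hg⟩
            rw [this]
            simp
      refine hsplit.trans ?_
      rw [Finset.sum_add_distrib, Finset.sum_ite_eq' S z, if_pos hz]
    have e3 : Pn * Pn ≤ LS.card * (Pn + Mu) := by
      have h1 := sum_mul_sq_le_sq_mul_sq LS (fun _ => (1 : ℤ)) (fun g => (n g : ℤ))
      have h2 : (∑ g ∈ LS, (n g : ℤ)) = (Pn : ℤ) := by
        rw [← e1]; push_cast; rfl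
      simp only [one_mul, one_pow, Finset.sum_const, nsmul_eq_mul, mul_one] at h1
      rw [h2] at h1
      have h3 : (∑ g ∈ LS, (n g : ℤ) ^ 2) ≤ (Pn : ℤ) + Mu := by
        have : (∑ g ∈ LS, (n g : ℤ) ^ 2) = ((∑ g ∈ LS, n g * n g : ℕ) : ℤ) := by
          push_cast
          exact Finset.sum_congr rfl fun g _ => by ring
        rw [this]
        exact_mod_cast e2
      have h4 : (LS.card : ℤ) * (∑ g ∈ LS, (n g : ℤ) ^ 2) ≤ LS.card * ((Pn : ℤ) + Mu) :=
        mul_le_mul_of_nonneg_left h3 (by positivity)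
      have h5 : (Pn : ℤ) * Pn ≤ LS.card * ((Pn : ℤ) + Mu) := by nlinarith
      exact_mod_cast h5
    have e4 : p * S.card ≤ Pn := by
      rw [hPn, mul_comm, ← smul_eq_mul, ← Finset.sum_const]
      exact Finset.sum_le_sum fun z _ => hpen z _ (hMi z)
    have e5 : Mu * Mu ≤ S.card * (S.card * (h * c) + Mu) := by
      have h1 := sum_mul_sq_le_sq_mul_sq S (fun _ => (1 : ℤ)) (fun z => (∑ w ∈ S, ff pen M z w : ℤ))
      simp only [one_mul, one_pow, Finset.sum_const, nsmul_eq_mul, mul_one] at h1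
      have h2 : (∑ z ∈ S, (∑ w ∈ S, ff pen M z w : ℤ)) = (Mu : ℤ) := by
        rw [hMu]; push_cast; rfl
      have h3 : (∑ z ∈ S, (∑ w ∈ S, ff pen M z w : ℤ) ^ 2) ≤ (S.card * (h * c) + Mu : ℕ) := by
        have h4 := hfew S
        have h5 : ∑ z ∈ S, (∑ w ∈ S, ff pen M z w) * (∑ w ∈ S, ff pen M z w)
            ≤ ∑ z ∈ S, (∑ w ∈ S, ff pen M z w) * (∑ w, ff pen M z w) :=
          Finset.sum_le_sum fun z _ => Nat.mul_le_mul_left _
            (Finset.sum_le_sum_of_subset (Finset.subset_univ S))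
        have h6 : ∑ z ∈ S, (∑ w ∈ S, ff pen M z w) * (∑ w ∈ S, ff pen M z w)
            ≤ S.card * (h * c) + Mu := h5.trans h4
        have h7 : (∑ z ∈ S, (∑ w ∈ S, ff pen M z w : ℤ) ^ 2)
            = ((∑ z ∈ S, (∑ w ∈ S, ff pen M z w) * (∑ w ∈ S, ff pen M z w) : ℕ) : ℤ) := by
          push_cast
          exact Finset.sum_congr rfl fun z _ => by ring
        rw [h7]
        exact_mod_cast h6
      have h8 : (Mu : ℤ) ^ 2 ≤ S.card * ((S.card * (h * c) + Mu : ℕ) : ℤ) := by
        have := mul_le_mul_of_nonneg_left h3 (by positivity : (0 : ℤ) ≤ S.card)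
        rw [h2] at h1
        linarith
      have h9 : (Mu : ℤ) * Mu ≤ S.card * ((S.card * (h * c) + Mu : ℕ) : ℤ) := by nlinarith
      exact_mod_cast h9
    obtain ⟨q, rfl⟩ : ∃ q, p = q + 2 := ⟨p - 2, by omega⟩
    exact arith hSpos (by omega) hcon e3 e4 e5 hnum
  -- Hall with demand two
  have hall := (Finset.all_card_le_biUnion_card_iff_exists_injective
    (fun zi : U × Bool => pen zi.1 (M zi.1))).1 (by
      intro s
      have h1 : s.card ≤ 2 * (s.image Prod.fst).card := by
        have : s ⊆ (s.image Prod.fst) ×ˢ (univ : Finset Bool) := by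
          intro x hx
          rw [Finset.mem_product]
          exact ⟨Finset.mem_image_of_mem _ hx, Finset.mem_univ _⟩
        have h2 := Finset.card_le_card this
        rw [Finset.card_product] at h2
        simp only [Finset.card_univ, Fintype.card_bool] at h2
        omega
      have h3 : s.biUnion (fun zi : U × Bool => pen zi.1 (M zi.1))
          = (s.image Prod.fst).biUnion (fun z => pen z (M z)) := by
        ext g
        simp only [Finset.mem_biUnion, Finset.mem_image]
        constructor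
        · rintro ⟨x, hx, hg⟩
          exact ⟨x.1, ⟨x, hx, rfl⟩, hg⟩
        · rintro ⟨z, ⟨x, hx, rfl⟩, hg⟩
          exact ⟨x, hx, hg⟩
      rw [h3]
      exact h1.trans (key _))
  obtain ⟨F, hF, hFm⟩ := hall
  refine ⟨M, fun z => F (z, true), fun z => F (z, false), hM, hMi, fun z => ⟨hFm _, hFm _⟩, ?_, ?_, ?_⟩
  · intro z w hzw
    have := hF hzw
    simp at this
  · intro z w hzw
    have := hF hzw
    simpa using this
  · intro z w hzw
    have := hF hzw
    simpa using this

end H20SW
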