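import Pool.Agent.Helper20.SW.Lines
import Pool.Agent.Helper20.SW.Cone

/-! Row D5s: the swap lemma on the interface `Cone`. -/

namespace H20SW

open Finset Classical

namespace Cone

variable {Y U E G P R : Type} [Fintype Y] [Fintype U] [Fintype E]

/-- number of points of `l` off `Q1` -/
noncomputable def offc (C : Cone Y U E G P R) (Q1 : Finset Y) (l : E) : ℕ :=
  (univ.filter fun y => C.on y l ∧ y ∉ Q1).card

/-- `l` is fat and not broken -/
def Usable (C : Cone Y U E G P R) (p : ℕ) (Q1 : Finset Y) (l : E) : Prop :=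
  p ≤ C.tl l ∧ p ≤ 2 * C.offc Q1 l

theorem good_of_mixed (C : Cone Y U E G P R) {p k : ℕ} (hk : 3 ≤ k) (h2k : 2 * k ≤ p)
    (hnum : 4 * (Fintype.card Y * C.s) ≤ k * (k - 2) * (k * (k - 2) - 2))
    (Q1 : Finset Y) (UF : Finset U) (l : U → E) (x y : U → Y)
    (hF : ∀ z ∈ UF, C.ok z (l z) ∧ C.Usable p Q1 (l z))
    (hFp : ∀ z ∈ UF, ∀ w ∈ UF, z ≠ w → C.pl z (l z) ≠ C.pl w (l w))
    (hT : ∀ z, z ∉ UF → C.ok z (l z) ∧ C.on (x z) (l z) ∧ C.on (y z) (l z) ∧ x z ≠ y z ∧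
      x z ∈ Q1 ∧ y z ∈ Q1 ∧ ¬ C.Usable p Q1 (l z))
    (hTp : ∀ z w, z ∉ UF → w ∉ UF → z ≠ w → C.pl z (l z) ≠ C.pl w (l w) ∧
      C.ln z (x z) ≠ C.ln w (x w) ∧ C.ln z (y z) ≠ C.ln w (y w) ∧ C.ln z (x z) ≠ C.ln w (y w)) :
    C.Good := by
  let U' := {z : U // z ∈ UF}
  let inc : U' → P → Prop := fun z H => ∃ m, C.ok z.1 m ∧ C.Usable p Q1 m ∧ C.pl z.1 m = H
  let pen : U' → P → Finset G := fun z H =>
    (univ.filter fun v => v ∉ Q1 ∧ ∃ m, C.pl z.1 m = H ∧ C.on v m).image (C.ln z.1)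
  have hpen : ∀ z H g, g ∈ pen z H ↔ ∃ v, v ∉ Q1 ∧ (∃ m, C.pl z.1 m = H ∧ C.on v m) ∧
      C.ln z.1 v = g := by
    intro z H g
    simp only [pen, Finset.mem_image, Finset.mem_filter, Finset.mem_univ, true_and]
    constructor
    · rintro ⟨v, ⟨h1, h2⟩, h3⟩
      exact ⟨v, h1, h2, h3⟩
    · rintro ⟨v, h1, h2, h3⟩
      exact ⟨v, ⟨h1, h2⟩, h3⟩
  have base : ∀ (z w : U') (H K : P), inc z H → inc w K → Rel pen z H w K →
      inc z K ∧ inc w H := by
    rintro z w H K ⟨m, hm1, hm2, hm3⟩ ⟨m', hm1', hm2', hm3'⟩ ⟨g, hg1, hg2⟩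
    rw [hpen] at hg1 hg2
    obtain ⟨v, hv1, ⟨n, hn1, hn2⟩, hv3⟩ := hg1
    obtain ⟨v', hv1', ⟨n', hn1', hn2'⟩, hv3'⟩ := hg2
    have e1 : n = m := C.pl_line _ _ _ _ (hn1.trans hm3.symm)
    have e2 : n' = m' := C.pl_line _ _ _ _ (hn1'.trans hm3'.symm)
    have e3 : v = v' := C.ln_pt z.1 w.1 v v' (hv3.trans hv3'.symm)
    subst e1 e2 e3
    have e4 : C.ln z.1 v = C.ln w.1 v := hv3.trans hv3'.symm
    have h1 : C.pl z.1 n = C.pl w.1 n := C.ln_pl _ _ _ _ hn2 e4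
    have h2 : C.pl z.1 n' = C.pl w.1 n' := C.ln_pl _ _ _ _ hn2' e4
    exact ⟨⟨n', C.ok_congr _ _ _ h2.symm hm1', hm2', h2.trans hm3'⟩,
      ⟨n, C.ok_congr _ _ _ h1 hm1, hm2, h1.symm.trans hm3⟩⟩
  have main := two_lines (inc := inc) (pen := pen) (h := Fintype.card Y) (c := C.s) (p := k)
    (fun z w H K _ => base z w H K)
    (by
      rintro z H ⟨m, hm1, hm2, hm3⟩
      have h1 : ((univ.filter fun w : U' => w ≠ z ∧ inc w H).image Subtype.val)
          ⊆ univ.filter fun w => C.pl w m = C.pl z.1 m := by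
        intro w hw
        simp only [Finset.mem_image, Finset.mem_filter, Finset.mem_univ, true_and] at hw ⊢
        obtain ⟨w', ⟨_, ⟨m', _, _, h3⟩⟩, rfl⟩ := hw
        have : m' = m := C.pl_line _ _ _ _ (h3.trans hm3.symm)
        subst this
        exact h3.trans hm3.symm
      have h2 := Finset.card_le_card h1
      rw [Finset.card_image_of_injective _ Subtype.val_injective] at h2
      have h3 := C.card_pl z.1 m hm1
      have h4 : (univ.filter fun w : U' => w ≠ z ∧ inc w H).card ≤ Fintype.card Y := by omega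
      exact le_trans (le_of_eq (by congr!)) h4)
    (by
      rintro w H K hHK ⟨m, hm1, hm2, hm3⟩ ⟨m', hm1', hm2', hm3'⟩
      have hmm : m ≠ m' := fun e => hHK (by rw [← hm3, ← hm3', e])
      by_cases hex : ∃ v, C.on v m ∧ C.on v m'
      · obtain ⟨v0, hv0, hv0'⟩ := hex
        have h1 : ((univ.filter fun z : U' => z ≠ w ∧ inc z H ∧ Rel pen z H w K).image Subtype.val)
            ⊆ univ.filter fun z => C.ln z v0 = C.ln w.1 v0 := by
          intro z hz
          simp only [Finset.mem_image, Finset.mem_filter, Finset.mem_univ, true_and] at hz ⊢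
          obtain ⟨z', ⟨_, _, ⟨g, hg1, hg2⟩⟩, rfl⟩ := hz
          rw [hpen] at hg1 hg2
          obtain ⟨v, hv1, ⟨n, hn1, hn2⟩, hv3⟩ := hg1
          obtain ⟨v', hv1', ⟨n', hn1', hn2'⟩, hv3'⟩ := hg2
          have e1 : n = m := C.pl_line _ _ _ _ (hn1.trans hm3.symm)
          have e2 : n' = m' := C.pl_line _ _ _ _ (hn1'.trans hm3'.symm)
          have e3 : v = v' := C.ln_pt z'.1 w.1 v v' (hv3.trans hv3'.symm)
          subst e1 e2 e3
          have e4 : v = v0 := by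
            by_contra hne
            exact hmm (C.uniq v v0 n n' hne hn2 hv0 hn2' hv0')
          subst e4
          exact hv3.trans hv3'.symm
        have h2 := Finset.card_le_card h1
        rw [Finset.card_image_of_injective _ Subtype.val_injective] at h2
        have h3 := h2.trans (C.card_ln w.1 v0)
        exact le_trans (le_of_eq (by congr!)) h3
      · have h1 : (univ.filter fun z : U' => z ≠ w ∧ inc z H ∧ Rel pen z H w K) = ∅ := by
          rw [Finset.filter_eq_empty_iff]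
          rintro z' - ⟨_, _, ⟨g, hg1, hg2⟩⟩
          rw [hpen] at hg1 hg2
          obtain ⟨v, hv1, ⟨n, hn1, hn2⟩, hv3⟩ := hg1
          obtain ⟨v', hv1', ⟨n', hn1', hn2'⟩, hv3'⟩ := hg2
          have e1 : n = m := C.pl_line _ _ _ _ (hn1.trans hm3.symm)
          have e2 : n' = m' := C.pl_line _ _ _ _ (hn1'.trans hm3'.symm)
          have e3 : v = v' := C.ln_pt z'.1 w.1 v v' (hv3.trans hv3'.symm)
          subst e1 e2 e3
          exact hex ⟨v, hn2, hn2'⟩
        have h2 : (univ.filter fun z : U' => z ≠ w ∧ inc z H ∧ Rel pen z H w K).card ≤ C.s := by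
          rw [h1]
          simp
        exact le_trans (le_of_eq (by congr!)) h2)
    (by
      rintro z w H K g g' hzw ⟨m, hm1, hm2, hm3⟩ ⟨m', hm1', hm2', hm3'⟩ hg hgw hg' hgw'
      rw [hpen] at hg hgw hg' hgw'
      obtain ⟨v, -, ⟨n, hn1, hn2⟩, hv3⟩ := hg
      obtain ⟨v', -, ⟨n', hn1', hn2'⟩, hv3'⟩ := hgw
      obtain ⟨r, -, ⟨q, hq1, hq2⟩, hr3⟩ := hg'
      obtain ⟨r', -, ⟨q', hq1', hq2'⟩, hr3'⟩ := hgw'
      have e1 : n = m := C.pl_line _ _ _ _ (hn1.trans hm3.symm)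
      have e2 : n' = m' := C.pl_line _ _ _ _ (hn1'.trans hm3'.symm)
      have e3 : q = m := C.pl_line _ _ _ _ (hq1.trans hm3.symm)
      have e4 : q' = m' := C.pl_line _ _ _ _ (hq1'.trans hm3'.symm)
      have e5 : v = v' := C.ln_pt z.1 w.1 v v' (hv3.trans hv3'.symm)
      have e6 : r = r' := C.ln_pt z.1 w.1 r r' (hr3.trans hr3'.symm)
      subst e1 e2 e5 e6
      rw [e3] at hq2
      rw [e4] at hq2'
      have e7 : C.ln z.1 v = C.ln w.1 v := hv3.trans hv3'.symm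
      have e8 : C.ln z.1 r = C.ln w.1 r := hr3.trans hr3'.symm
      by_cases hvr : v = r
      · rw [← hv3, ← hr3, hvr]
      · exfalso
        -- two common points: the planes agree and then the two users are on two common lines
        exact hzw (Subtype.ext (C.two_ln z.1 w.1 v r hvr e7 e8)))
    hk
    (by
      rintro z H ⟨m, hm1, hm2, hm3⟩
      have h1 : (univ.filter fun v => C.on v m ∧ v ∉ Q1).card ≤ (pen z H).card := by
        refine Finset.card_le_card_of_injOn (C.ln z.1) ?_ ?_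
        · intro v hv
          rw [Finset.mem_coe, Finset.mem_filter] at hv
          rw [Finset.mem_coe, hpen]
          exact ⟨v, hv.2.2, ⟨m, hm3, hv.2.1⟩, rfl⟩
        · intro v _ v' _ h
          exact C.ln_pt _ _ _ _ h
      have h2 : p ≤ 2 * (univ.filter fun v => C.on v m ∧ v ∉ Q1).card := hm2.2
      omega)
    hnum
    (M0 := fun z => C.pl z.1 (l z.1))
    (by
      intro z w hzw
      by_contra hne
      exact hFp z.1 z.2 w.1 w.2 (fun h => hne (Subtype.ext h)) hzw)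
    (fun z => ⟨l z.1, (hF z.1 z.2).1, (hF z.1 z.2).2, rfl⟩)
  obtain ⟨M, f, g, hMinj, hMinc, hfg, hfgne, hfinj, hginj⟩ := main
  choose m hm1 hm2 hm3 using hMinc
  have hf' : ∀ z : U', ∃ v, v ∉ Q1 ∧ C.on v (m z) ∧ C.ln z.1 v = f z := by
    intro z
    obtain ⟨v, hv1, ⟨n, hn1, hn2⟩, hv3⟩ := (hpen z (M z) (f z)).1 (hfg z).1
    have e1 : n = m z := C.pl_line _ _ _ _ (hn1.trans (hm3 z).symm)
    exact ⟨v, hv1, e1 ▸ hn2, hv3⟩
  have hg' : ∀ z : U', ∃ v, v ∉ Q1 ∧ C.on v (m z) ∧ C.ln z.1 v = g z := by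
    intro z
    obtain ⟨v, hv1, ⟨n, hn1, hn2⟩, hv3⟩ := (hpen z (M z) (g z)).1 (hfg z).2
    have e1 : n = m z := C.pl_line _ _ _ _ (hn1.trans (hm3 z).symm)
    exact ⟨v, hv1, e1 ▸ hn2, hv3⟩
  choose a ha1 ha2 ha3 using hf'
  choose b hb1 hb2 hb3 using hg'
  refine ⟨fun z => if h : z ∈ UF then m ⟨z, h⟩ else l z,
    fun z => if h : z ∈ UF then a ⟨z, h⟩ else x z,
    fun z => if h : z ∈ UF then b ⟨z, h⟩ else y z, ?_, ?_⟩
  · intro z
    by_cases h : z ∈ UF
    · simp only [dif_pos h]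
      refine ⟨hm1 ⟨z, h⟩, ha2 ⟨z, h⟩, hb2 ⟨z, h⟩, ?_⟩
      intro e
      have := hfgne ⟨z, h⟩ ⟨z, h⟩
      rw [← ha3, ← hb3, e] at this
      exact this rfl
    · simp only [dif_neg h]
      obtain ⟨h1, h2, h3, h4, -⟩ := hT z h
      exact ⟨h1, h2, h3, h4⟩
  · intro z w hzw
    by_cases hz : z ∈ UF <;> by_cases hw : w ∈ UF
    · simp only [dif_pos hz, dif_pos hw]
      have hne : (⟨z, hz⟩ : U') ≠ ⟨w, hw⟩ := fun e => hzw (congrArg Subtype.val e)
      refine ⟨?_, ?_, ?_, ?_⟩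
      · intro e
        rw [hm3 ⟨z, hz⟩, hm3 ⟨w, hw⟩] at e
        exact hne (hMinj e)
      · intro e
        rw [ha3 ⟨z, hz⟩, ha3 ⟨w, hw⟩] at e
        exact hne (hfinj e)
      · intro e
        rw [hb3 ⟨z, hz⟩, hb3 ⟨w, hw⟩] at e
        exact hne (hginj e)
      · intro e
        rw [ha3 ⟨z, hz⟩, hb3 ⟨w, hw⟩] at e
        exact hfgne _ _ e
    · simp only [dif_pos hz, dif_neg hw]
      obtain ⟨h1, h2, h3, h4, h5, h6, h7⟩ := hT w hw
      refine ⟨?_, ?_, ?_, ?_⟩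
      · intro e
        have := C.pl_line _ _ _ _ e
        exact h7 (this ▸ hm2 ⟨z, hz⟩)
      · intro e
        have := C.ln_pt _ _ _ _ e
        exact ha1 ⟨z, hz⟩ (this ▸ h5)
      · intro e
        have := C.ln_pt _ _ _ _ e
        exact hb1 ⟨z, hz⟩ (this ▸ h6)
      · intro e
        have := C.ln_pt _ _ _ _ e
        exact ha1 ⟨z, hz⟩ (this ▸ h6)
    · simp only [dif_neg hz, dif_pos hw]
      obtain ⟨h1, h2, h3, h4, h5, h6, h7⟩ := hT z hz
      refine ⟨?_, ?_, ?_, ?_⟩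
      · intro e
        have := C.pl_line _ _ _ _ e
        exact h7 (this ▸ hm2 ⟨w, hw⟩)
      · intro e
        have := C.ln_pt _ _ _ _ e
        exact ha1 ⟨w, hw⟩ (this ▸ h5)
      · intro e
        have := C.ln_pt _ _ _ _ e
        exact hb1 ⟨w, hw⟩ (this ▸ h6)
      · intro e
        have := C.ln_pt _ _ _ _ e
        exact hb1 ⟨w, hw⟩ (this ▸ h5)
    · simp only [dif_neg hz, dif_neg hw]
      exact hTp z w hz hw hzw

end Cone

end H20SW
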