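import Mathlib

/-! Numbers for the swap step of case (b). -/

namespace H20SW

theorem num_k {a N s : ℕ} (ha : 3000 ≤ a) (hN : N ≤ 2 * a ^ 40) (hs : s ≤ a ^ 34) :
    3 ≤ a ^ 19 / 2 ∧ 2 * (a ^ 19 / 2) ≤ a ^ 19 ∧
      4 * (N * s) ≤ (a ^ 19 / 2) * (a ^ 19 / 2 - 2) * ((a ^ 19 / 2) * (a ^ 19 / 2 - 2) - 2) := by
  have hP : 3000 ≤ a ^ 19 := le_trans ha (Nat.le_self_pow (by norm_num) a)
  have e38 : a ^ 38 = a ^ 19 * a ^ 19 := by rw [← pow_add]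
  have e76 : a ^ 76 = a ^ 38 * a ^ 38 := by rw [← pow_add]
  have e74 : a ^ 76 = a ^ 2 * a ^ 74 := by rw [← pow_add]
  have e40 : a ^ 40 * a ^ 34 = a ^ 74 := by rw [← pow_add]
  set P := a ^ 19 with hPdef
  obtain ⟨k, hk⟩ : ∃ k, P / 2 = k + 2 := ⟨P / 2 - 2, by omega⟩
  have h4 : P ≤ 4 * k := by omega
  have h5 : P ≤ 4 * (k + 2) := by omega
  refine ⟨by omega, by omega, ?_⟩
  rw [hk, Nat.add_sub_cancel]
  have h6 : a ^ 38 ≤ 16 * ((k + 2) * k) := by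
    rw [e38]
    calc P * P ≤ (4 * (k + 2)) * (4 * k) := Nat.mul_le_mul h5 h4
      _ = 16 * ((k + 2) * k) := by ring
  obtain ⟨m, hm⟩ : ∃ m, (k + 2) * k = m + 2 := by
    refine ⟨(k + 2) * k - 2, ?_⟩
    have : 2 ≤ (k + 2) * k := by nlinarith
    omega
  rw [hm, Nat.add_sub_cancel]
  rw [hm] at h6
  have h7 : a ^ 38 ≤ 32 * m := by
    have : 3000 ≤ a ^ 38 := le_trans ha (Nat.le_self_pow (by norm_num) a)
    omega
  have h8 : a ^ 76 ≤ 512 * ((m + 2) * m) := by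
    rw [e76]
    calc a ^ 38 * a ^ 38 ≤ (16 * (m + 2)) * (32 * m) := Nat.mul_le_mul h6 h7
      _ = 512 * ((m + 2) * m) := by ring
  have h9 : 4 * (N * s) ≤ 8 * a ^ 74 := by
    calc 4 * (N * s) ≤ 4 * ((2 * a ^ 40) * a ^ 34) :=
          Nat.mul_le_mul_left _ (Nat.mul_le_mul hN hs)
      _ = 8 * (a ^ 40 * a ^ 34) := by ring
      _ = 8 * a ^ 74 := by rw [e40]
  have h10 : 4096 * a ^ 74 ≤ a ^ 76 := by
    rw [e74]
    apply Nat.mul_le_mul_right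
    nlinarith
  have h11 : 512 * (4 * (N * s)) ≤ 512 * ((m + 2) * m) := by
    calc 512 * (4 * (N * s)) ≤ 512 * (8 * a ^ 74) := Nat.mul_le_mul_left _ h9
      _ = 4096 * a ^ 74 := by ring
      _ ≤ a ^ 76 := h10
      _ ≤ _ := h8
  omega

end H20SW
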