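import Mathlib

/-! SWAP LEMMA (abstract). Users `U`, planes `P`, lines `G`. -/

namespace H20SW

open Finset Classical

variable {U P G : Type} [Fintype U]

/-- the two pencils share a line -/
def Rel (pen : U → P → Finset G) (z : U) (H : P) (w : U) (K : P) : Prop :=
  ∃ g, g ∈ pen z H ∧ g ∈ pen w K

theorem Rel.symm' {pen : U → P → Finset G} {z : U} {H : P} {w : U} {K : P}
    (h : Rel pen z H w K) : Rel pen w K z H := by
  obtain ⟨g, h1, h2⟩ := h
  exact ⟨g, h2, h1⟩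

/-- indicator of a mutual pair -/
noncomputable def ff (pen : U → P → Finset G) (M : U → P) (z w : U) : ℕ :=
  if z ≠ w ∧ Rel pen z (M z) w (M w) then 1 else 0

/-- indicator of a mutual pair, the plane of the first user is free -/
noncomputable def gg (pen : U → P → Finset G) (M : U → P) (z : U) (H : P) (w : U) : ℕ :=
  if z ≠ w ∧ Rel pen z H w (M w) then 1 else 0

theorem ff_symm (pen : U → P → Finset G) (M : U → P) (z w : U) :
    ff pen M z w = ff pen M w z := by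
  unfold ff
  by_cases h : z ≠ w ∧ Rel pen z (M z) w (M w)
  · rw [if_pos h, if_pos ⟨h.1.symm, h.2.symm'⟩]
  · rw [if_neg h, if_neg]
    rintro ⟨h1, h2⟩
    exact h ⟨h1.symm, h2.symm'⟩

theorem ff_self (pen : U → P → Finset G) (M : U → P) (z : U) : ff pen M z z = 0 := by
  simp [ff]

theorem ff_le (pen : U → P → Finset G) (M : U → P) (z w : U) : ff pen M z w ≤ 1 := by
  unfold ff
  split_ifs <;> simp

theorem gg_eq (pen : U → P → Finset G) (M : U → P) (z w : U) :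
    gg pen M z (M z) w = ff pen M z w := rfl

/-- the potential -/
noncomputable def Phi (pen : U → P → Finset G) (M : U → P) : ℕ := ∑ z, ∑ w, ff pen M z w

theorem split_sum (f : U → U → ℕ) (hf : ∀ z w, f z w = f w z) (T : Finset U) :
    ∑ z, ∑ w, f z w = ∑ z ∈ T, ∑ w ∈ T, f z w + 2 * (∑ z ∈ T, ∑ w ∈ Tᶜ, f z w)
      + ∑ z ∈ Tᶜ, ∑ w ∈ Tᶜ, f z w := by
  have h1 : ∀ z, ∑ w, f z w = ∑ w ∈ T, f z w + ∑ w ∈ Tᶜ, f z w := fun z =>
    (Finset.sum_add_sum_compl T _).symm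
  have h2 : ∑ z, ∑ w, f z w = ∑ z ∈ T, ∑ w, f z w + ∑ z ∈ Tᶜ, ∑ w, f z w :=
    (Finset.sum_add_sum_compl T _).symm
  rw [h2]
  simp only [h1, Finset.sum_add_distrib]
  have h3 : ∑ z ∈ Tᶜ, ∑ w ∈ T, f z w = ∑ z ∈ T, ∑ w ∈ Tᶜ, f z w := by
    rw [Finset.sum_comm]
    refine Finset.sum_congr rfl fun z _ => Finset.sum_congr rfl fun w _ => hf _ _
  rw [h3]
  ring

/-- one exchange does not help in a minimal matching -/
theorem exchange {pen : U → P → Finset G} {M : U → P} {z1 z2 : U} (hne : z1 ≠ z2)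
    (hrel : Rel pen z1 (M z1) z2 (M z2))
    (hmin : Phi pen M ≤ Phi pen (M ∘ Equiv.swap z1 z2)) :
    ∑ w, ff pen M z1 w + ∑ w, ff pen M z2 w ≤
      ∑ w ∈ ({z1, z2} : Finset U)ᶜ, gg pen M z1 (M z2) w
        + ∑ w ∈ ({z1, z2} : Finset U)ᶜ, gg pen M z2 (M z1) w + 2 := by
  set T : Finset U := {z1, z2} with hT
  set M' := M ∘ Equiv.swap z1 z2 with hM'
  have e1 : M' z1 = M z2 := by simp [hM']
  have e2 : M' z2 = M z1 := by simp [hM']
  have e3 : ∀ w ∈ Tᶜ, M' w = M w := by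
    intro w hw
    have hw' : w ≠ z1 ∧ w ≠ z2 := by
      simpa [hT, not_or] using hw
    simp [hM', Equiv.swap_apply_of_ne_of_ne hw'.1 hw'.2]
  unfold Phi at hmin
  rw [split_sum _ (ff_symm pen M) T, split_sum _ (ff_symm pen M') T] at hmin
  have hA : ∑ z ∈ Tᶜ, ∑ w ∈ Tᶜ, ff pen M' z w = ∑ z ∈ Tᶜ, ∑ w ∈ Tᶜ, ff pen M z w := by
    refine Finset.sum_congr rfl fun z hz => Finset.sum_congr rfl fun w hw => ?_
    unfold ff
    rw [e3 z hz, e3 w hw]
  have hB : ∀ f : U → ℕ, ∑ z ∈ T, f z = f z1 + f z2 := by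
    intro f
    rw [hT, Finset.sum_pair hne]
  have hC : ∑ z ∈ T, ∑ w ∈ T, ff pen M z w = 2 := by
    rw [hB, hB, hB, ff_self, ff_self, ff_symm pen M z2 z1]
    unfold ff
    rw [if_pos ⟨hne, hrel⟩]
  have hD : ∑ z ∈ T, ∑ w ∈ T, ff pen M' z w ≤ 2 := by
    rw [hB, hB, hB, ff_self, ff_self]
    have := ff_le pen M' z1 z2
    have := ff_le pen M' z2 z1
    omega
  have hE : ∑ z ∈ T, ∑ w ∈ Tᶜ, ff pen M' z w =
      ∑ w ∈ Tᶜ, gg pen M z1 (M z2) w + ∑ w ∈ Tᶜ, gg pen M z2 (M z1) w := by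
    rw [hB]
    congr 1
    · refine Finset.sum_congr rfl fun w hw => ?_
      unfold ff gg
      rw [e1, e3 w hw]
    · refine Finset.sum_congr rfl fun w hw => ?_
      unfold ff gg
      rw [e2, e3 w hw]
  have hF : ∑ w, ff pen M z1 w + ∑ w, ff pen M z2 w
      = ∑ z ∈ T, ∑ w ∈ Tᶜ, ff pen M z w + 2 := by
    rw [hB, ← Finset.sum_add_sum_compl T (ff pen M z1), ← Finset.sum_add_sum_compl T (ff pen M z2),
      hB, hB, ff_self, ff_self, ff_symm pen M z2 z1]
    have : ff pen M z1 z2 = 1 := by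
      unfold ff
      rw [if_pos ⟨hne, hrel⟩]
    omega
  omega

/-- **Mutual pairs are rare** in a minimal matching. -/
theorem few_mutual {inc : U → P → Prop} {pen : U → P → Finset G} {h c : ℕ}
    (hinc : ∀ z w H K, z ≠ w → inc z H → inc w K → Rel pen z H w K → inc z K ∧ inc w H)
    (hh : ∀ z H, inc z H → (univ.filter fun w => w ≠ z ∧ inc w H).card ≤ h)
    (hc : ∀ w H K, H ≠ K → inc w H → inc w K →
      (univ.filter fun z => z ≠ w ∧ inc z H ∧ Rel pen z H w K).card ≤ c)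
    {M : U → P} (hM : Function.Injective M) (hMi : ∀ z, inc z (M z))
    (hmin : ∀ M' : U → P, Function.Injective M' → (∀ z, inc z (M' z)) →
      Phi pen M ≤ Phi pen M')
    (S : Finset U) :
    ∑ z ∈ S, (∑ w ∈ S, ff pen M z w) * (∑ w, ff pen M z w)
      ≤ S.card * (h * c) + ∑ z ∈ S, ∑ w ∈ S, ff pen M z w := by
  -- the pairwise inequality
  have key : ∀ z1 z2, z1 ≠ z2 → Rel pen z1 (M z1) z2 (M z2) →
      ∑ w, ff pen M z1 w + ∑ w, ff pen M z2 w ≤
      ∑ w ∈ ({z1, z2} : Finset U)ᶜ, gg pen M z1 (M z2) w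
        + ∑ w ∈ ({z1, z2} : Finset U)ᶜ, gg pen M z2 (M z1) w + 2 := by
    intro z1 z2 hne hrel
    refine exchange hne hrel (hmin _ (hM.comp (Equiv.swap z1 z2).injective) ?_)
    intro z
    have h12 := hinc z1 z2 _ _ hne (hMi z1) (hMi z2) hrel
    by_cases h1 : z = z1
    · subst h1
      simpa using h12.1
    · by_cases h2 : z = z2
      · subst h2
        simpa using h12.2
      · simpa [Equiv.swap_apply_of_ne_of_ne h1 h2] using hMi z
  -- weighted
  have key2 : ∀ z1 z2, ff pen M z1 z2 * (∑ w, ff pen M z1 w) + ff pen M z1 z2 * (∑ w, ff pen M z2 w)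
      ≤ ff pen M z1 z2 * (∑ w ∈ ({z1, z2} : Finset U)ᶜ, gg pen M z1 (M z2) w)
        + ff pen M z1 z2 * (∑ w ∈ ({z1, z2} : Finset U)ᶜ, gg pen M z2 (M z1) w)
        + 2 * ff pen M z1 z2 := by
    intro z1 z2
    by_cases hz : z1 ≠ z2 ∧ Rel pen z1 (M z1) z2 (M z2)
    · have : ff pen M z1 z2 = 1 := by unfold ff; rw [if_pos hz]
      rw [this]
      have := key z1 z2 hz.1 hz.2
      omega
    · have : ff pen M z1 z2 = 0 := by unfold ff; rw [if_neg hz]
      rw [this]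
      simp
  -- the count for one z1
  have cnt : ∀ z1, ∑ z2 ∈ S, ff pen M z1 z2 *
      (∑ w ∈ ({z1, z2} : Finset U)ᶜ, gg pen M z2 (M z1) w) ≤ h * c := by
    intro z1
    calc ∑ z2 ∈ S, ff pen M z1 z2 * (∑ w ∈ ({z1, z2} : Finset U)ᶜ, gg pen M z2 (M z1) w)
        ≤ ∑ z2 : U, ∑ w ∈ univ.filter (fun w => w ≠ z1 ∧ inc w (M z1)),
            (if z2 ≠ w ∧ inc z2 (M z1) ∧ Rel pen z2 (M z1) w (M w) then 1 else 0) := by
          refine le_trans ?_ (Finset.sum_le_sum_of_subset (Finset.subset_univ S))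
          refine Finset.sum_le_sum fun z2 _ => ?_
          by_cases hz : z1 ≠ z2 ∧ Rel pen z1 (M z1) z2 (M z2)
          · have h1 : ff pen M z1 z2 = 1 := by unfold ff; rw [if_pos hz]
            have hz2 := (hinc z1 z2 _ _ hz.1 (hMi z1) (hMi z2) hz.2).2
            rw [h1, one_mul]
            calc ∑ w ∈ ({z1, z2} : Finset U)ᶜ, gg pen M z2 (M z1) w
                ≤ ∑ w ∈ ({z1, z2} : Finset U)ᶜ,
                  (if (w ≠ z1 ∧ inc w (M z1)) then
                    (if z2 ≠ w ∧ inc z2 (M z1) ∧ Rel pen z2 (M z1) w (M w) then 1 else 0)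
                    else 0) := by
                  refine Finset.sum_le_sum fun w hw => ?_
                  have hw' : w ≠ z1 ∧ w ≠ z2 := by simpa [not_or] using hw
                  unfold gg
                  by_cases hr : z2 ≠ w ∧ Rel pen z2 (M z1) w (M w)
                  · have := (hinc z2 w _ _ hr.1 hz2 (hMi w) hr.2).2
                    rw [if_pos hr, if_pos ⟨hw'.1, this⟩, if_pos ⟨hr.1, hz2, hr.2⟩]
                  · rw [if_neg hr]
                    exact Nat.zero_le _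
              _ ≤ ∑ w : U, (if (w ≠ z1 ∧ inc w (M z1)) then
                    (if z2 ≠ w ∧ inc z2 (M z1) ∧ Rel pen z2 (M z1) w (M w) then 1 else 0)
                    else 0) := Finset.sum_le_sum_of_subset (Finset.subset_univ _)
              _ = _ := by rw [Finset.sum_filter]
          · have h1 : ff pen M z1 z2 = 0 := by unfold ff; rw [if_neg hz]
            rw [h1, zero_mul]
            exact Nat.zero_le _
      _ = ∑ w ∈ univ.filter (fun w => w ≠ z1 ∧ inc w (M z1)), ∑ z2 : U,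
            (if z2 ≠ w ∧ inc z2 (M z1) ∧ Rel pen z2 (M z1) w (M w) then 1 else 0) :=
          Finset.sum_comm
      _ ≤ ∑ w ∈ univ.filter (fun w => w ≠ z1 ∧ inc w (M z1)), c := by
          refine Finset.sum_le_sum fun w hw => ?_
          rw [Finset.mem_filter] at hw
          have hne : M z1 ≠ M w := fun e => hw.2.1 (hM e).symm
          have := hc w (M z1) (M w) hne hw.2.2 (hMi w)
          rw [Finset.card_filter] at this
          exact this
      _ ≤ h * c := by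
          rw [Finset.sum_const, smul_eq_mul]
          exact Nat.mul_le_mul_right _ (hh z1 (M z1) (hMi z1))
  -- sum up
  have tot : ∑ z1 ∈ S, ∑ z2 ∈ S, (ff pen M z1 z2 * (∑ w, ff pen M z1 w) +
      ff pen M z1 z2 * (∑ w, ff pen M z2 w)) ≤
      ∑ z1 ∈ S, ∑ z2 ∈ S, (ff pen M z1 z2 * (∑ w ∈ ({z1, z2} : Finset U)ᶜ, gg pen M z1 (M z2) w)
        + ff pen M z1 z2 * (∑ w ∈ ({z1, z2} : Finset U)ᶜ, gg pen M z2 (M z1) w)
        + 2 * ff pen M z1 z2) :=
    Finset.sum_le_sum fun z1 _ => Finset.sum_le_sum fun z2 _ => key2 z1 z2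
  simp only [Finset.sum_add_distrib] at tot
  have sy1 : ∑ z1 ∈ S, ∑ z2 ∈ S, ff pen M z1 z2 * (∑ w, ff pen M z2 w)
      = ∑ z1 ∈ S, ∑ z2 ∈ S, ff pen M z1 z2 * (∑ w, ff pen M z1 w) := by
    rw [Finset.sum_comm]
    refine Finset.sum_congr rfl fun a _ => Finset.sum_congr rfl fun b _ => ?_
    rw [ff_symm pen M b a]
  have sy2 : ∑ z1 ∈ S, ∑ z2 ∈ S,
        ff pen M z1 z2 * (∑ w ∈ ({z1, z2} : Finset U)ᶜ, gg pen M z1 (M z2) w)
      = ∑ z1 ∈ S, ∑ z2 ∈ S,
        ff pen M z1 z2 * (∑ w ∈ ({z1, z2} : Finset U)ᶜ, gg pen M z2 (M z1) w) := by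
    rw [Finset.sum_comm]
    refine Finset.sum_congr rfl fun a _ => Finset.sum_congr rfl fun b _ => ?_
    rw [ff_symm pen M b a, Finset.pair_comm]
  rw [sy1, sy2] at tot
  have hcn : ∑ z1 ∈ S, ∑ z2 ∈ S,
        ff pen M z1 z2 * (∑ w ∈ ({z1, z2} : Finset U)ᶜ, gg pen M z2 (M z1) w)
      ≤ S.card * (h * c) := by
    rw [← smul_eq_mul, ← Finset.sum_const]
    exact Finset.sum_le_sum fun z1 _ => cnt z1
  have hl : ∑ z1 ∈ S, ∑ z2 ∈ S, ff pen M z1 z2 * (∑ w, ff pen M z1 w)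
      = ∑ z ∈ S, (∑ w ∈ S, ff pen M z w) * (∑ w, ff pen M z w) :=
    Finset.sum_congr rfl fun z _ => (Finset.sum_mul _ _ _).symm
  have hm : ∑ z1 ∈ S, ∑ z2 ∈ S, 2 * ff pen M z1 z2 = 2 * ∑ z ∈ S, ∑ w ∈ S, ff pen M z w := by
    simp only [Finset.mul_sum]
  rw [hl, hm] at tot
  omega

end H20SW
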